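import Pool.Agent.Work.MP_64ea0f_cs.InterfaceG4

set_option autoImplicit false

/-! # INFY: elements of infinite order, general case (cs_blocks, helper96; adapted from helper18, INF.lean) -/

namespace Pool.CS
namespace INFY96

open Rd

/-! ### Generalities -/

section gen
variable {G : Type} [Group G]

theorem pc_conj (g : G) {x y : G} (h : PC x y) : PC (g⁻¹ * x * g) y := by
  intro N hN hf
  obtain ⟨c, hc⟩ := h N hN hf
  refine ⟨g⁻¹ * c, ?_⟩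
  have h1 := hN.conj_mem _ hc g⁻¹
  have h2 : g⁻¹ * c * y * (g⁻¹ * c)⁻¹ * (g⁻¹ * x * g)⁻¹ = g⁻¹ * (c * y * c⁻¹ * x⁻¹) * g⁻¹⁻¹ := by
    group
  rw [h2]; exact h1

theorem pc_conj_right (g : G) {x y : G} (h : PC x y) : PC x (g * y * g⁻¹) := by
  intro N hN hf
  obtain ⟨c, hc⟩ := h N hN hf
  refine ⟨c * g⁻¹, ?_⟩
  have h2 : c * g⁻¹ * (g * y * g⁻¹) * (c * g⁻¹)⁻¹ * x⁻¹ = c * y * c⁻¹ * x⁻¹ := by group
  rw [h2]; exact hc

theorem pow_mem_of {N : Subgroup G} [hN : N.Normal] {a x : G} (h : a * x⁻¹ ∈ N) (m : ℕ) :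
    a ^ m * (x ^ m)⁻¹ ∈ N := by
  rw [← div_eq_mul_inv, ← QuotientGroup.eq_iff_div_mem] at h ⊢
  rw [QuotientGroup.mk_pow, QuotientGroup.mk_pow, h]

theorem pow_index {N : Subgroup G} (hN : N.Normal) (x : G) : x ^ N.index ∈ N := by
  have h1 : ((x ^ N.index : G) : G ⧸ N) = 1 := by
    rw [QuotientGroup.mk_pow, Subgroup.index_eq_card, pow_card_eq_one']
  exact (QuotientGroup.eq_one_iff _).1 h1

/-- products of commuting subgroups -/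
theorem prod_sub {P1 P2 : Subgroup G} (hc : ∀ x ∈ P1, ∀ y ∈ P2, x * y = y * x)
    {N1 N2 : Subgroup G} (h1 : N1 ≤ P1) (h2 : N2 ≤ P2) (f1 : N1.relIndex P1 ≠ 0)
    (f2 : N2.relIndex P2 ≠ 0) :
    ∃ N R : Subgroup G, N ≤ R ∧ N.relIndex R ≠ 0 ∧
      (∀ z, z ∈ R ↔ ∃ x ∈ P1, ∃ y ∈ P2, z = x * y) ∧
      (∀ z, z ∈ N ↔ ∃ x ∈ N1, ∃ y ∈ N2, z = x * y) := by
  let φ : P1 × P2 →* G := MonoidHom.noncommCoprod P1.subtype P2.subtype
    (fun x y => hc x.1 x.2 y.1 y.2)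
  have hφ : ∀ p : P1 × P2, φ p = p.1 * p.2 := fun p => rfl
  let N' : Subgroup (P1 × P2) := (N1.subgroupOf P1).prod (N2.subgroupOf P2)
  have hN' : N'.index ≠ 0 := by
    rw [Subgroup.index_prod]
    exact mul_ne_zero f1 f2
  refine ⟨N'.map φ, φ.range, Subgroup.map_le_range φ N', ?_, ?_, ?_⟩
  · have e1 : (N'.map φ).subgroupOf φ.range = N'.map φ.rangeRestrict := by
      have : N'.map φ = (N'.map φ.rangeRestrict).map φ.range.subtype := by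
        rw [Subgroup.map_map]; rfl
      rw [this, Subgroup.subgroupOf,
        Subgroup.comap_map_eq_self_of_injective φ.range.subtype_injective]
    rw [Subgroup.relIndex, e1]
    intro h0
    have h3 := Subgroup.index_map_dvd (H := N') φ.rangeRestrict_surjective
    rw [h0, zero_dvd_iff] at h3
    exact hN' h3
  · intro z
    constructor
    · rintro ⟨p, rfl⟩
      exact ⟨p.1, p.1.2, p.2, p.2.2, hφ p⟩
    · rintro ⟨x, hx, y, hy, rfl⟩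
      exact ⟨(⟨x, hx⟩, ⟨y, hy⟩), rfl⟩
  · intro z
    constructor
    · rintro ⟨p, hp, rfl⟩
      exact ⟨p.1, hp.1, p.2, hp.2, hφ p⟩
    · rintro ⟨x, hx, y, hy, rfl⟩
      exact ⟨(⟨x, h1 hx⟩, ⟨y, h2 hy⟩), ⟨hx, hy⟩, rfl⟩

end gen

/-! ### The claim on the two components -/

variable {D : Rd}

/-- the setting after the reductions -/
structure Set96 (D : Rd) (H : Subgroup D.W) (J : Set D.S) (h x y x1 x2 y1 y2 : D.W) : Prop where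
  c12 : ∀ a ∈ D.par J, ∀ b ∈ D.par (D.perp J), a * b = b * a
  hx : x = x1 * x2
  hy : y = y1 * y2
  x1m : x1 ∈ D.par J
  y1m : y1 ∈ D.par J
  x2m : x2 ∈ D.par (D.perp J)
  y2m : y2 ∈ D.par (D.perp J)
  star : ∀ M2 : Subgroup D.W, M2.Normal → M2.FiniteIndex →
    ∃ g, g * h = h * g ∧ g * y * g⁻¹ * x⁻¹ ∈ M2

theorem claim (hFT : Stmt_FTG) (hPER : Stmt_PER) (hCEN : Stmt_CEN)
    {H : Subgroup D.W} {J : Set D.S} {h x y x1 x2 y1 y2 : D.W} (hE : D.Ess J h)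
    (S : Set96 D H J h x y x1 x2 y1 y2) (N1 N2 : Subgroup D.W) (h1 : N1 ≤ D.par J)
    (h2 : N2 ≤ D.par (D.perp J)) (f1 : N1.relIndex (D.par J) ≠ 0)
    (f2 : N2.relIndex (D.par (D.perp J)) ≠ 0) :
    ∃ g1 ∈ D.par J, ∃ g2 ∈ D.par (D.perp J), g1 * h = h * g1 ∧
      g1 * y1 * g1⁻¹ * x1⁻¹ ∈ N1 ∧ g2 * y2 * g2⁻¹ * x2⁻¹ ∈ N2 := by
  obtain ⟨p1, p2, p3, p4, p5⟩ := hPER D J
  obtain ⟨N, R, hNR, hf, hR, hN⟩ := prod_sub S.c12 h1 h2 f1 f2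
  have hRP : R = D.par (J ∪ D.perp J) := by
    apply le_antisymm
    · intro z hz
      obtain ⟨a, ha, b, hb, rfl⟩ := (hR z).1 hz
      exact mul_mem (p4 ha) (p5 hb)
    · intro z hz
      obtain ⟨a, ha, b, hb, e⟩ := p3 z hz
      exact (hR z).2 ⟨a, ha, b, hb, e⟩
  obtain ⟨M2, hM2n, hM2f, hM2⟩ := hFT D (J ∪ D.perp J) N (hRP ▸ hNR) (hRP ▸ hf)
  obtain ⟨g, hg1, hg2⟩ := S.star M2 hM2n hM2f
  obtain ⟨g1, hg1m, g2, hg2m, hgg⟩ := hCEN D J h hE g hg1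
  have hh : h ∈ D.par J := hE.1
  have hg2h : g2 * h = h * g2 := (S.c12 h hh g2 hg2m).symm
  have hg1h : g1 * h = h * g1 := by
    have e1 : g1 = g * g2⁻¹ := by rw [hgg]; group
    have e2 : g2⁻¹ * h = h * g2⁻¹ := by
      have : Commute g2 h := hg2h
      exact this.inv_left
    rw [e1, mul_assoc, e2, ← mul_assoc, hg1, mul_assoc]
  set a := g1 * y1 * g1⁻¹ * x1⁻¹ with ha
  set b := g2 * y2 * g2⁻¹ * x2⁻¹ with hb
  have ham : a ∈ D.par J :=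
    mul_mem (mul_mem (mul_mem hg1m S.y1m) (inv_mem hg1m)) (inv_mem S.x1m)
  have hbm : b ∈ D.par (D.perp J) :=
    mul_mem (mul_mem (mul_mem hg2m S.y2m) (inv_mem hg2m)) (inv_mem S.x2m)
  have hab : g * y * g⁻¹ * x⁻¹ = a * b := by
    have k1 : Commute (y1 * g1⁻¹ * x1⁻¹) g2 :=
      S.c12 _ (mul_mem (mul_mem S.y1m (inv_mem hg1m)) (inv_mem S.x1m)) _ hg2m
    have k2 : Commute (g1⁻¹ * x1⁻¹) y2 :=
      S.c12 _ (mul_mem (inv_mem hg1m) (inv_mem S.x1m)) _ S.y2m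
    have k3 : Commute (g1⁻¹ * x1⁻¹) g2⁻¹ :=
      S.c12 _ (mul_mem (inv_mem hg1m) (inv_mem S.x1m)) _ (inv_mem hg2m)
    have k4 : Commute x1⁻¹ x2⁻¹ := S.c12 _ (inv_mem S.x1m) _ (inv_mem S.x2m)
    have k5 : Commute y1 g2 := S.c12 _ S.y1m _ hg2m
    have k6 : Commute g1⁻¹ g2⁻¹ := S.c12 _ (inv_mem hg1m) _ (inv_mem hg2m)
    calc g * y * g⁻¹ * x⁻¹ = g1 * (g2 * y1) * y2 * (g2⁻¹ * g1⁻¹) * (x2⁻¹ * x1⁻¹) := by
          rw [hgg, S.hx, S.hy]; group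
      _ = g1 * (y1 * g2) * y2 * (g1⁻¹ * g2⁻¹) * (x1⁻¹ * x2⁻¹) := by
          rw [k5.eq, k6.eq, k4.eq]
      _ = g1 * y1 * g2 * y2 * g1⁻¹ * (g2⁻¹ * x1⁻¹) * x2⁻¹ := by group
      _ = g1 * y1 * g2 * y2 * g1⁻¹ * (x1⁻¹ * g2⁻¹) * x2⁻¹ := by
          rw [(S.c12 x1⁻¹ (inv_mem S.x1m) g2⁻¹ (inv_mem hg2m))]
      _ = g1 * y1 * g2 * (y2 * (g1⁻¹ * x1⁻¹)) * g2⁻¹ * x2⁻¹ := by group
      _ = g1 * y1 * g2 * ((g1⁻¹ * x1⁻¹) * y2) * g2⁻¹ * x2⁻¹ := by rw [k2.eq]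
      _ = g1 * y1 * (g2 * (g1⁻¹ * x1⁻¹)) * y2 * g2⁻¹ * x2⁻¹ := by group
      _ = g1 * y1 * ((g1⁻¹ * x1⁻¹) * g2) * y2 * g2⁻¹ * x2⁻¹ := by
          rw [(S.c12 (g1⁻¹ * x1⁻¹) (mul_mem (inv_mem hg1m) (inv_mem S.x1m)) g2 hg2m)]
      _ = a * b := by rw [ha, hb]; group
  have habN : a * b ∈ N := by
    apply hM2
    refine ⟨?_, ?_⟩
    · rw [← hab]; exact hg2
    · exact mul_mem (p4 ham) (p5 hbm)
  obtain ⟨n1, hn1, n2, hn2, e⟩ := (hN _).1 habN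
  have e2 : n1⁻¹ * a = n2 * b⁻¹ := by
    have : n1⁻¹ * (a * b) * b⁻¹ = n1⁻¹ * (n1 * n2) * b⁻¹ := by rw [e]
    calc n1⁻¹ * a = n1⁻¹ * (a * b) * b⁻¹ := by group
      _ = n1⁻¹ * (n1 * n2) * b⁻¹ := this
      _ = n2 * b⁻¹ := by group
  have e3 : n1⁻¹ * a ∈ D.par J ⊓ D.par (D.perp J) :=
    Subgroup.mem_inf.2 ⟨mul_mem (inv_mem (h1 hn1)) ham,
      by rw [e2]; exact mul_mem (h2 hn2) (inv_mem hbm)⟩
  rw [p2, Subgroup.mem_bot] at e3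
  have e4 : a = n1 := (inv_mul_eq_one.1 e3).symm
  have e5 : b = n2 := by
    rw [e2] at e3
    exact (mul_inv_eq_one.1 e3).symm
  rw [← e4, ha] at hn1
  rw [← e5, hb] at hn2
  exact ⟨g1, hg1m, g2, hg2m, hg1h, hn1, hn2⟩

/-- second components -/
theorem second (hTOR : Stmt_TORG) (hRES : Stmt_RES) (hFT : Stmt_FTG) (hPER : Stmt_PER)
    (hCEN : Stmt_CEN) {H : Subgroup D.W} {J : Set D.S} {h x y x1 x2 y1 y2 : D.W} (hE : D.Ess J h)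
    (S : Set96 D H J h x y x1 x2 y1 y2) {m : ℕ} (hm : 0 < m) (hx2 : x2 ^ m = 1) :
    ∃ c2 ∈ D.par (D.perp J), c2 * x2 * c2⁻¹ = y2 := by
  obtain ⟨D', i, f, _, _, hf, hfr, _, _, _⟩ := hRES D (D.perp J)
  obtain ⟨x', hx'⟩ : ∃ x', f x' = x2 := by
    have := S.x2m; rw [← hfr] at this; exact this
  obtain ⟨y', hy'⟩ : ∃ y', f y' = y2 := by
    have := S.y2m; rw [← hfr] at this; exact this
  have h1 : x' ^ m = 1 := hf (by rw [map_pow, hx', hx2, map_one])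
  have h2 : PC x' y' := by
    intro N hN hNf
    have k1 : N.map f ≤ D.par (D.perp J) := by
      rw [← hfr]; exact Subgroup.map_le_range f N
    have k2 : (N.map f).relIndex (D.par (D.perp J)) ≠ 0 := by
      rw [← hfr]
      have e1 : (N.map f).subgroupOf f.range = N.map f.rangeRestrict := by
        have : N.map f = (N.map f.rangeRestrict).map f.range.subtype := by
          rw [Subgroup.map_map]; rfl
        rw [this, Subgroup.subgroupOf,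
          Subgroup.comap_map_eq_self_of_injective f.range.subtype_injective]
      rw [Subgroup.relIndex, e1]
      intro h0
      have h3 := Subgroup.index_map_dvd (H := N) f.rangeRestrict_surjective
      rw [h0, zero_dvd_iff] at h3
      exact hNf.index_ne_zero h3
    obtain ⟨g1, _, g2, hg2, _, _, h5⟩ := claim hFT hPER hCEN hE S (D.par J) (N.map f)
      le_rfl k1 (by rw [Subgroup.relIndex_self]; exact one_ne_zero) k2
    obtain ⟨c, hc⟩ : ∃ c, f c = g2 := by rw [← hfr] at hg2; exact hg2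
    refine ⟨c, ?_⟩
    obtain ⟨n, hn, hn2⟩ := h5
    have : n = c * y' * c⁻¹ * x'⁻¹ := hf (by
      rw [hn2, map_mul, map_mul, map_mul, map_inv, map_inv, hc, hx', hy'])
    rw [← this]; exact hn
  obtain ⟨c, hc⟩ := isConj_iff.1 (hTOR.2 D' x' y' ⟨m, hm, h1⟩ h2)
  refine ⟨f c, ?_, ?_⟩
  · rw [← hfr]; exact ⟨c, rfl⟩
  · rw [← hx', ← hy', ← hc, map_mul, map_mul, map_inv]

/-- first components -/
theorem first (hGAM : Stmt_GAMY) (hVAC : Stmt_VAC) (hFT : Stmt_FTG) (hPER : Stmt_PER)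
    (hCEN : Stmt_CEN) {H : Subgroup D.W} (hH : D.Deep H) {J : Set D.S}
    {h x y x1 x2 y1 y2 : D.W} (hhH : h ∈ H) (hE : D.Ess J h)
    (S : Set96 D H J h x y x1 x2 y1 y2) (hx1 : x1 * h = h * x1) (hy1 : y1 * h = h * y1) :
    ∃ c1 ∈ D.par J, c1 * x1 * c1⁻¹ = y1 := by
  obtain ⟨A, hA, ⟨M0, hM0n, hM0f, hM0⟩, hAc, hAfg, hAN⟩ := hGAM D H hH J h hhH hE
  set Γ : Subgroup D.W := D.par J ⊓ Subgroup.centralizer {h} with hΓ
  have hmem : ∀ g, g ∈ Γ ↔ g ∈ D.par J ∧ g * h = h * g := by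
    intro g
    rw [hΓ, Subgroup.mem_inf, Subgroup.mem_centralizer_singleton_iff]
  have hAi : (A.subgroupOf Γ).FiniteIndex := by
    have h1 : (M0.subgroupOf Γ).FiniteIndex := inferInstance
    refine Subgroup.finiteIndex_of_le (H := M0.subgroupOf Γ) ?_
    intro z hz
    exact hM0 ⟨hz, z.2⟩
  have hAg : (A.subgroupOf Γ).FG := by
    rw [← Group.fg_iff_subgroup_fg] at hAfg ⊢
    exact (Group.fg_iff_monoid_fg.2 ((Monoid.fg_of_surjective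
      (Subgroup.subgroupOfEquivOfLe hA).symm.toMonoidHom
      (Subgroup.subgroupOfEquivOfLe hA).symm.surjective)))
  have hsep : CSep Γ := hVAC Γ (A.subgroupOf Γ) hAi hAg (fun a ha b hb =>
    Subtype.ext (hAc a ha b hb))
  have hx1Γ : x1 ∈ Γ := (hmem _).2 ⟨S.x1m, hx1⟩
  have hy1Γ : y1 ∈ Γ := (hmem _).2 ⟨S.y1m, hy1⟩
  have hPC : PC (⟨x1, hx1Γ⟩ : Γ) ⟨y1, hy1Γ⟩ := by
    intro N hN hNf
    have k1 : (N.map Γ.subtype ⊓ A).relIndex A ≠ 0 := by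
      rw [Subgroup.inf_relIndex_right]
      have h1 : (N.map Γ.subtype).relIndex Γ ≠ 0 := by
        rw [Subgroup.relIndex, Subgroup.subgroupOf,
          Subgroup.comap_map_eq_self_of_injective Γ.subtype_injective]
        exact hNf.index_ne_zero
      exact fun h0 => h1 (Subgroup.relIndex_eq_zero_of_le_right hA h0)
    obtain ⟨M, hMn, hMf, hM⟩ := hAN (N.map Γ.subtype ⊓ A) inf_le_right k1
    have k2 : (M ⊓ M0 ⊓ D.par J).relIndex (D.par J) ≠ 0 := by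
      rw [Subgroup.inf_relIndex_right]
      have : (M ⊓ M0).FiniteIndex := inferInstance
      have h3 : ((M ⊓ M0).subgroupOf (D.par J)).FiniteIndex := inferInstance
      exact h3.index_ne_zero
    obtain ⟨g1, hg1, g2, _, hg1h, h4, _⟩ := claim hFT hPER hCEN hE S (M ⊓ M0 ⊓ D.par J)
      (D.par (D.perp J)) inf_le_right le_rfl k2
      (by rw [Subgroup.relIndex_self]; exact one_ne_zero)
    have hg1Γ : g1 ∈ Γ := (hmem _).2 ⟨hg1, hg1h⟩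
    refine ⟨⟨g1, hg1Γ⟩, ?_⟩
    have h5 : g1 * y1 * g1⁻¹ * x1⁻¹ ∈ Γ :=
      mul_mem (mul_mem (mul_mem hg1Γ hy1Γ) (inv_mem hg1Γ)) (inv_mem hx1Γ)
    have h6 : g1 * y1 * g1⁻¹ * x1⁻¹ ∈ A := hM0 ⟨h4.1.2, h5⟩
    obtain ⟨⟨n, hn, hn2⟩, _⟩ := hM ⟨h4.1.1, h6⟩
    have h7 : n = ⟨g1, hg1Γ⟩ * ⟨y1, hy1Γ⟩ * ⟨g1, hg1Γ⟩⁻¹ * ⟨x1, hx1Γ⟩⁻¹ := Subtype.ext hn2
    rw [← h7]; exact hn
  obtain ⟨c, hc⟩ := isConj_iff.1 (hsep _ _ hPC)
  exact ⟨c, ((hmem _).1 c.2).1, congrArg Subtype.val hc⟩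

/-- the case `y ^ m = x ^ m` -/
theorem main2 (hTOR : Stmt_TORG) (hRTW : Stmt_RTWG) (hRES : Stmt_RES) (hFT : Stmt_FTG)
    (hGAM : Stmt_GAMY) (hVAC : Stmt_VAC) (hPER : Stmt_PER) (hCEN : Stmt_CEN)
    {H : Subgroup D.W} (hH : D.Deep H) {J : Set D.S} {x y : D.W} {k : ℕ} (hk : 0 < k)
    (hxk : x ^ k ∈ H) (hE : D.Ess J (x ^ (k * 2))) (hxy : y ^ (k * 2) = x ^ (k * 2))
    (hPC : PC x y) : IsConj x y := by
  have hm : 0 < k * 2 := by omega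
  obtain ⟨p1, p2, p3, p4, p5⟩ := hPER D J
  have hRT := hRTW D H hH (x ^ k) hxk (x ^ k) hxk
  rw [← pow_mul] at hRT
  set h := x ^ (k * 2) with hh
  have hstar : ∀ M2 : Subgroup D.W, M2.Normal → M2.FiniteIndex →
      ∃ g, g * h = h * g ∧ g * y * g⁻¹ * x⁻¹ ∈ M2 := by
    intro M2 hM2 hM2f
    obtain ⟨M', hM', hM'f, hM'c⟩ := hRT M2 hM2 hM2f
    obtain ⟨c, hc⟩ := hPC (M' ⊓ M2) inferInstance inferInstance
    have h1 : (c * y * c⁻¹) ^ (k * 2) * (x ^ (k * 2))⁻¹ ∈ M' := pow_mem_of hc.1 (k * 2)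
    rw [conj_pow, hxy, ← hh] at h1
    obtain ⟨μ, hμ, hμc⟩ := hM'c c h1
    refine ⟨μ * c, mul_inv_eq_iff_eq_mul.1 hμc, ?_⟩
    have h2 := hc.2
    have h3 : μ * c * y * (μ * c)⁻¹ * x⁻¹ = μ * (c * y * c⁻¹ * x⁻¹) * (x * μ⁻¹ * x⁻¹) := by group
    rw [h3]
    exact mul_mem (mul_mem hμ h2) (hM2.conj_mem _ (inv_mem hμ) x)
  have hxh : x * h = h * x := by rw [hh, ← pow_succ', ← pow_succ]
  have hyh : y * h = h * y := by rw [← hxy, ← pow_succ', ← pow_succ]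
  obtain ⟨x1, hx1, x2, hx2, ex⟩ := hCEN D J h hE x hxh
  obtain ⟨y1, hy1, y2, hy2, ey⟩ := hCEN D J h hE y hyh
  have hJ : h ∈ D.par J := hE.1
  have comm1 : ∀ z z1 z2 : D.W, z = z1 * z2 → z2 ∈ D.par (D.perp J) → z * h = h * z →
      z1 * h = h * z1 := by
    intro z z1 z2 e1 e2 e3
    have e4 : Commute h z2 := p1 h hJ z2 e2
    have e5 : z1 = z * z2⁻¹ := by rw [e1]; group
    rw [e5, mul_assoc, ← (e4.inv_right).eq, ← mul_assoc, e3, mul_assoc]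
  have hx1h := comm1 x x1 x2 ex hx2 hxh
  have hy1h := comm1 y y1 y2 ey hy2 hyh
  have tor : ∀ z z1 z2 : D.W, z = z1 * z2 → z1 ∈ D.par J → z2 ∈ D.par (D.perp J) →
      z ^ (k * 2) = h → z2 ^ (k * 2) = 1 := by
    intro z z1 z2 e1 e2 e3 e4
    have e5 : Commute z1 z2 := p1 z1 e2 z2 e3
    rw [e1, e5.mul_pow] at e4
    have e6 : z2 ^ (k * 2) = (z1 ^ (k * 2))⁻¹ * h := by rw [← e4]; group
    have e7 : z2 ^ (k * 2) ∈ D.par J ⊓ D.par (D.perp J) :=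
      Subgroup.mem_inf.2 ⟨by rw [e6]; exact mul_mem (inv_mem (pow_mem e2 _)) hJ, pow_mem e3 _⟩
    rw [p2, Subgroup.mem_bot] at e7
    exact e7
  have hx2m := tor x x1 x2 ex hx1 hx2 rfl
  have S : Set96 D H J h x y x1 x2 y1 y2 := ⟨p1, ex, ey, hx1, hy1, hx2, hy2, hstar⟩
  have hhH : h ∈ H := by
    rw [hh, pow_mul]; exact pow_mem hxk 2
  obtain ⟨c2, hc2, hc2x⟩ := second hTOR hRES hFT hPER hCEN hE S hm hx2m
  obtain ⟨c1, hc1, hc1x⟩ := first hGAM hVAC hFT hPER hCEN hH hhH hE S hx1h hy1h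
  rw [isConj_iff]
  refine ⟨c1 * c2, ?_⟩
  have k1 : Commute x1 c2 := p1 x1 hx1 c2 hc2
  have k2 : Commute c1⁻¹ (c2 * x2 * c2⁻¹) :=
    p1 _ (inv_mem hc1) _ (mul_mem (mul_mem hc2 hx2) (inv_mem hc2))
  calc c1 * c2 * x * (c1 * c2)⁻¹ = c1 * (c2 * x1) * x2 * c2⁻¹ * c1⁻¹ := by rw [ex]; group
    _ = c1 * (x1 * c2) * x2 * c2⁻¹ * c1⁻¹ := by rw [k1.eq]
    _ = c1 * x1 * ((c2 * x2 * c2⁻¹) * c1⁻¹) := by group
    _ = c1 * x1 * (c1⁻¹ * (c2 * x2 * c2⁻¹)) := by rw [k2.eq]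
    _ = (c1 * x1 * c1⁻¹) * (c2 * x2 * c2⁻¹) := by group
    _ = y := by rw [hc1x, hc2x, ey]

/-- the case where the parabolic closure is standard -/
theorem main1 (hTOR : Stmt_TORG) (hRTW : Stmt_RTWG) (hRES : Stmt_RES) (hFT : Stmt_FTG)
    (hGAM : Stmt_GAMY) (hVAC : Stmt_VAC) (hPER : Stmt_PER) (hCEN : Stmt_CEN)
    {H : Subgroup D.W} (hH : D.Deep H) {J : Set D.S} {x y : D.W} {k : ℕ} (hk : 0 < k)
    (hxk : x ^ k ∈ H) (hyk : y ^ k ∈ H) (hE : D.Ess J (x ^ (k * 2)))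
    (hPC : PC x y) : IsConj x y := by
  have hRT := hRTW D H hH (x ^ k) hxk (y ^ k) hyk
  rw [← pow_mul, ← pow_mul] at hRT
  obtain ⟨M', hM', hM'f, hM'c⟩ := hRT ⊤ inferInstance inferInstance
  obtain ⟨c, hc⟩ := hPC M' hM' hM'f
  have h1 : (c * y * c⁻¹) ^ (k * 2) * (x ^ (k * 2))⁻¹ ∈ M' := pow_mem_of hc (k * 2)
  rw [conj_pow] at h1
  obtain ⟨μ, _, hμc⟩ := hM'c c h1
  have h2 : (μ * c * y * (μ * c)⁻¹) ^ (k * 2) = x ^ (k * 2) := by rw [conj_pow]; exact hμc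
  have h3 := main2 hTOR hRTW hRES hFT hGAM hVAC hPER hCEN hH hk hxk hE h2
    (pc_conj_right (μ * c) hPC)
  exact h3.trans (isConj_iff.2 ⟨(μ * c)⁻¹, by group⟩)

end INFY96

open INFY96 in
theorem infy : Stmt_TORG → Stmt_RTWG → Stmt_DEEPG → Stmt_DEEP → Stmt_RES → Stmt_FTG → Stmt_GAMY →
    Stmt_VAC → Stmt_ESS → Stmt_ESN → Stmt_PER → Stmt_CEN → Stmt_INFY := by
  intro hTOR hRTW hDEEPG _ hRES hFT hGAM hVAC hESS _ hPER hCEN D x y _ hPC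
  obtain ⟨H, hH⟩ := hDEEPG D
  have hi : 0 < H.index := Nat.pos_of_ne_zero hH.fin.index_ne_zero
  obtain ⟨m, hm, ⟨t, ht⟩, g, J, hE⟩ := hESS D x (H.index * 2) (by omega)
  have hm2 : m = H.index * t * 2 := by rw [ht]; ring
  have ht0 : 0 < H.index * t := by
    rcases Nat.eq_zero_or_pos (H.index * t) with h | h
    · rw [h] at hm2; omega
    · exact h
  have hk : ∀ z : D.W, z ^ (H.index * t) ∈ H := fun z => by
    rw [pow_mul]; exact pow_mem (pow_index hH.nor z) t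
  have h1 : g⁻¹ * x ^ m * g = (g⁻¹ * x * g) ^ (H.index * t * 2) := by
    have := conj_pow (i := m) (a := g⁻¹) (b := x)
    rw [inv_inv] at this
    rw [← hm2, this]
  rw [h1] at hE
  have h2 := main1 hTOR hRTW hRES hFT hGAM hVAC hPER hCEN hH ht0 (hk _) (hk _) hE
    (pc_conj g hPC)
  exact (isConj_iff.2 ⟨g⁻¹, by group⟩ : IsConj x (g⁻¹ * x * g)).trans h2

end Pool.CS
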