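import Pool.Agent.Work.MP_64ea0f_cs.InterfaceG2b

set_option autoImplicit false

/-! # CLO: closest chambers (cs_blocks, helper96) -/

namespace Pool.CS
namespace CLO96

theorem inj (D : Rd) (w : D.W) : Function.Injective (D.ρ w) := by
  intro a b hab
  have h1 : D.ρ w⁻¹ (D.ρ w a) = D.ρ w⁻¹ (D.ρ w b) := by rw [hab]
  have h2 : ∀ c : D.V, D.ρ w⁻¹ (D.ρ w c) = c := fun c => by
    have : (D.ρ w⁻¹ * D.ρ w) c = c := by
      rw [← map_mul, inv_mul_cancel, map_one]; rfl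
    exact this
  rwa [h2, h2] at h1

end CLO96

open CLO96 in
theorem clo : Stmt_VX1 → Stmt_CLO := by
  intro hVX D x hx
  obtain ⟨_, hact, hone, hmul, _⟩ := hVX D
  obtain ⟨v, hv⟩ : ∃ v : D.W, ∀ u : D.W, (x \ D.act v D.Ps).ncard ≤ (x \ D.act u D.Ps).ncard := by
    obtain ⟨n, ⟨v, hv⟩, hmin⟩ := WellFounded.has_min (r := ((· < ·) : ℕ → ℕ → Prop)) wellFounded_lt
      (Set.range fun u : D.W => (x \ D.act u D.Ps).ncard) ⟨_, 1, rfl⟩
    refine ⟨v, fun u => ?_⟩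
    have := hmin _ ⟨u, rfl⟩
    simp only at hv
    rw [hv]
    exact not_lt.1 this
  have key : ∀ u : D.W, (D.act v⁻¹ x \ D.act u D.Ps).ncard = (x \ D.act (v * u) D.Ps).ncard := by
    intro u
    have h1 : D.act u D.Ps = D.act v⁻¹ (D.act (v * u) D.Ps) := by
      rw [← hmul, ← mul_assoc, inv_mul_cancel, one_mul]
    rw [h1]
    unfold Rd.act
    rw [← Set.image_sdiff (inj D v⁻¹), Set.ncard_image_of_injective _ (inj D v⁻¹)]
  refine ⟨v⁻¹, hact x hx v⁻¹, fun w => ?_⟩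
  have h1 : D.act v⁻¹ x \ D.Ps = D.act v⁻¹ x \ D.act 1 D.Ps := by rw [hone]
  rw [h1, key, key, mul_one]
  exact hv _

end Pool.CS
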